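import Mathlib
import Pool.Agent.H43X.VocL
import Pool.Agent.H43X.StL

/-!
# Embedding problems and towers over the affine line over a finite field

Let `κ` be a finite field of characteristic `p` (for instance `F_p`). The conjecture says that a finite
group `E` is the group of an étale Galois cover of the affine line over `κ = F_p` if `E / p(E)` is
cyclic, `p(E)` being the subgroup generated by the elements of `p`-power order. The definitions are in
the file `Pool/Agent/H43X/VocL.lean`:

* `AltWreath G n` is the alternating wreath product `G ≀ A_n`.
* For sets `A G` of natural numbers `StepL p A` is the smallest class of homomorphisms of groups which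
  contains the projections `(G ≀ A_n) ^ I ⋊ W → W` (`G` finite and perfect, `n` in `A G`, `I` a finite
  set on which the group `W` acts), the surjections `E → W`, `E` finite with `E / p(E)` cyclic, whose
  kernel has a series of normal subgroups of `E` whose factors are `p`-groups, or of order prime to `p`
  and centralised by `p(E)` (for example a central kernel), and the isomorphisms, and is closed under
  composition and quotients.
* `LineGalois κ L`: `L` is a finite Galois extension of `κ(X)` unramified over `Spec κ[X]`;
  `OccursOverLine κ E`: `E` is the group of such an extension; `SolvableOverLine κ L E f`: the
  embedding problem `f : E → Gal(L/κ(X))` has a proper solution which is unramified over `Spec κ[X]`.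
* `LineHom κ Ω W φ` (`Ω` a separable closure of `κ(X)`): `φ` is a surjection of the absolute Galois
  group of `κ(X)` onto `W` given by such an extension, that is, a continuous surjection of the
  fundamental group of the affine line over `κ` onto the finite group `W`. `LineTower κ Ω f φ₀`: for
  the sequence `f i : W (i + 1) → W i` there are compatible such surjections onto the `W i`, starting
  with `φ₀`.

The theorem: there are sets `A G`, such that

0. (`LargeSets`) if `p` is odd, for every finite perfect group `G` (no realization of `G` is assumed)
   `A G` contains all large multiples of a number `M > 0`;
1. (`StepsSolvable`) for all finite Galois extensions `L` of `κ(X)` unramified over the affine line all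
   embedding problems `f : E → Gal(L/κ(X))` with `f` in the class `StepL p A` have proper solutions
   which are unramified over the affine line;
2. (`StepsOccur`) all groups `E` with a homomorphism in the class `StepL p A` to a finite cyclic group
   (for example to the trivial group) are groups of étale Galois covers of the affine line over `κ`;
3. (`StepsTower`) all infinite sequences of steps have compatible solutions: their inverse limits are
   quotients of the étale fundamental group of the affine line over `κ`.
-/

set_option autoImplicit false

namespace Pool.Agent.Results.MP_37a734_ag.AffineLineSteps

open Pool.Agent.H43X.VocL

theorem result (p : ℕ) [Fact p.Prime] (κ : Type) [Field κ] [Finite κ] [CharP κ p] :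
    ∃ A : ∀ (G : Type) [Group G], Set ℕ,
      (p ≠ 2 → LargeSets A) ∧ StepsSolvable p κ A ∧ StepsOccur p κ A ∧ StepsTower p κ A :=
  ⟨fun G _ => Pool.Agent.H43X.StL.setL κ G, fun hp => Pool.Agent.H43X.StL.large_sets κ p hp,
    Pool.Agent.H43X.StL.steps_solvable κ p, Pool.Agent.H43X.StL.steps_occur κ p,
    Pool.Agent.H43X.StL.steps_tower κ p⟩

end Pool.Agent.Results.MP_37a734_ag.AffineLineSteps
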