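import Mathlib
import Pool.Agent.H17Z.Red

/-!
# Abhyankar's affine arithmetical conjecture: reduction to centreless groups

For a finite group `A` let `p(A)` be the subgroup generated by the elements of `p`-power order. The
conjecture (Q1, in the equivalent form of the problem file) says that every finite group `A` with
`A / p(A)` cyclic is the group of a connected finite étale Galois cover of the affine line over `F_p`.

(1) Every finite group `A` with `A / p(A)` cyclic has a normal subgroup `N` such that `B = A / N` is
reduced: `B / p(B)` is cyclic, `B` has no normal `p`-subgroup except `1`, and the centraliser of `p(B)` in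
`B` is trivial (so `B` is a group of automorphisms of `p(B)`); and for every finite field `κ` of
characteristic `p`, the group `A` occurs over the affine line over `κ` if and only if `B` does.

(2) For every finite field `κ` of characteristic `p` the conjecture over `κ` is equivalent to the
following case: for every finite group `P` generated by its elements of `p`-power order, with trivial
centre and without normal `p`-subgroups except `1`, and every automorphism `a` of `P` of order prime to `p`
the group `P ⋊ ⟨a⟩` occurs over the affine line over `κ`.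

Proof. (1) By `MP_7f581e_nt.AffineLineEmbeddings` (library `Pool.Agent.H17Z`) kernels with such a series
do not matter. Let `N` be maximal among them. If `A / N` has no normal `p`-subgroup then the centraliser of
`p(A / N)` has order prime to `p`: its intersection with `p(A / N)` is abelian and contains all its elements
of `p`-power order. (2) A normal `p`-subgroup of `p(B)` is contained in all Sylow `p`-subgroups of `B`, hence in
a normal `p`-subgroup of `B`. An element `y` of order prime to `p` generates `B` modulo `p(B)`, and it is
determined by the automorphism `a` of `p(B)` which it induces, so `B` is a quotient of `p(B) ⋊ ⟨a⟩`.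
-/

set_option autoImplicit false

namespace Pool.Agent.Results.MP_37a734_ag.CentrelessReduction

open Polynomial

/-- `H` is the group of a finite Galois extension `L` of `κ(t)` which is unramified over `κ[t]`, that
is, at all primes of the integral closure of `κ[t]` in `L`. -/
def AffineLineGroup (κ H : Type) [Field κ] [Group H] : Prop :=
  ∃ (L : Type) (_ : Field L) (_ : Algebra (RatFunc κ) L) (_ : Algebra κ[X] L)
    (_ : IsScalarTower κ[X] (RatFunc κ) L) (_ : FiniteDimensional (RatFunc κ) L)
    (_ : IsGalois (RatFunc κ) L), Nonempty ((L ≃ₐ[RatFunc κ] L) ≃* H) ∧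
    ∀ (q : Ideal (integralClosure κ[X] L)) (_ : q.IsPrime), Algebra.IsUnramifiedAt κ[X] q

/-- `p(A)`, the subgroup generated by the elements of `p`-power order, that is, by the Sylow
`p`-subgroups. -/
def quasi (p : ℕ) (A : Type) [Group A] : Subgroup A :=
  Subgroup.closure {g : A | ∃ k : ℕ, g ^ p ^ k = 1}

/-- It is a normal subgroup. -/
instance (p : ℕ) (A : Type) [Group A] : (quasi p A).Normal := Pool.Agent.H17Z.pE_norm p A

/-- `A / p(A)` is cyclic. -/
def CyclicByQuasi (p : ℕ) (A : Type) [Group A] : Prop := IsCyclic (A ⧸ quasi p A)

/-- The group `A` has no normal `p`-subgroup except `1`. -/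
def NoNormalPSubgroup (p : ℕ) (A : Type) [Group A] : Prop :=
  ∀ T : Subgroup A, T.Normal → (∀ g ∈ T, ∃ k : ℕ, g ^ p ^ k = 1) → T = ⊥

/-- Reduced groups: `B / p(B)` is cyclic, there is no normal `p`-subgroup except `1`, and the centraliser
of `p(B)` in `B` is trivial. -/
def Reduced (p : ℕ) (B : Type) [Group B] : Prop :=
  CyclicByQuasi p B ∧ NoNormalPSubgroup p B ∧ Subgroup.centralizer (quasi p B : Set B) = ⊥

/-- Part 1: `A` has a reduced quotient `A / N` such that `A` occurs over the affine line if and only if
`A / N` does, over all finite fields of characteristic `p`. -/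
def LocalReduction (p : ℕ) : Prop :=
  ∀ (A : Type) [Group A] [Finite A], CyclicByQuasi p A →
    ∃ (N : Subgroup A) (_ : N.Normal), Reduced p (A ⧸ N) ∧
      ∀ (κ : Type) [Field κ] [Finite κ] [CharP κ p], AffineLineGroup κ (A ⧸ N) ↔ AffineLineGroup κ A

/-- The conjecture over `κ`, in the equivalent form: all finite cyclic-by-quasi-`p` groups occur over
the affine line over `κ`. -/
def Conjecture (p : ℕ) (κ : Type) [Field κ] : Prop :=
  ∀ (A : Type) [Group A] [Finite A], CyclicByQuasi p A → AffineLineGroup κ A

/-- Its case of the groups `P ⋊ ⟨a⟩`: `P` is generated by its elements of `p`-power order, it has a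
trivial centre and no normal `p`-subgroup except `1`, and the order of the automorphism `a` of `P` is prime
to `p`. -/
def CentrelessCase (p : ℕ) (κ : Type) [Field κ] : Prop :=
  ∀ (P : Type) [Group P] [Finite P], quasi p P = ⊤ → Subgroup.center P = ⊥ → NoNormalPSubgroup p P →
    ∀ a : MulAut P, ¬ p ∣ orderOf a →
      AffineLineGroup κ (P ⋊[(Subgroup.zpowers a).subtype] (Subgroup.zpowers a))

/-- **Reduction of the affine arithmetical conjecture to centreless groups.** -/
theorem result (p : ℕ) [Fact p.Prime] :
    LocalReduction p ∧
    ∀ (κ : Type) [Field κ] [Finite κ] [CharP κ p], Conjecture p κ ↔ CentrelessCase p κ := by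
  have hloc : LocalReduction p := by
    intro A _ _ hA
    obtain ⟨N, hN, h1, h2, h3⟩ := Pool.Agent.H17Z.local_red p A hA
    exact ⟨N, hN, ⟨h1, h2.1, h2.2⟩, h3⟩
  refine ⟨hloc, fun κ _ _ _ => ⟨fun h P _ _ hP _ _ a _ => ?_, fun h A _ _ hA => ?_⟩⟩
  · have hfin : Finite (P ⋊[(Subgroup.zpowers a).subtype] (Subgroup.zpowers a)) :=
      Finite.of_equiv _ SemidirectProduct.equivProd.symm
    exact h _ (Pool.Agent.H17Z.semi_cyc p P hP a)
  · obtain ⟨N, hN, ⟨h1, h2, h3⟩, h4⟩ := hloc A hA
    rw [← h4 κ]
    obtain ⟨a, ha, f, hf⟩ := Pool.Agent.H17Z.exists_semi p (B := A ⧸ N) h1 h3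
    have hfin : Finite (Pool.Agent.H17Z.pE p (A ⧸ N) ⋊[(Subgroup.zpowers a).subtype]
        (Subgroup.zpowers a)) := Finite.of_equiv _ SemidirectProduct.equivProd.symm
    exact Pool.Agent.H17Z.UnrAff.of_surj f hf
      (h (Pool.Agent.H17Z.pE p (A ⧸ N)) (Pool.Agent.H17Z.quasi_self p)
        (Pool.Agent.H17Z.center_sub p h3) (Pool.Agent.H17Z.op_sub p h2) a ha)

end Pool.Agent.Results.MP_37a734_ag.CentrelessReduction
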